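import Mathlib

/-!
# Typical ranks of looped cycles
-/

namespace Pool.Agent.Results.MP_541c26_co.LoopedCycle

open Matrix

/-- A semisimple graph on the vertex set `Fin n` is given by its edge set, a set of unordered
pairs; the pair `s(i, i)` is a loop at `i`. A real symmetric matrix `A` is a completion of the
`G`-partial matrix `M : G → ℝ` if it agrees with `M` on all specified entries. -/
def IsCompletion {n : ℕ} {G : Set (Sym2 (Fin n))} (M : G → ℝ) (A : Matrix (Fin n) (Fin n) ℝ) :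
    Prop :=
  A.IsSymm ∧ ∀ (i j : Fin n) (h : s(i, j) ∈ G), A i j = M ⟨s(i, j), h⟩

/-- The minimum completion rank of a partial matrix. -/
noncomputable def minRank {n : ℕ} {G : Set (Sym2 (Fin n))} (M : G → ℝ) : ℕ :=
  sInf {r | ∃ A : Matrix (Fin n) (Fin n) ℝ, IsCompletion M A ∧ A.rank = r}

/-- `r` is a typical rank of `G` if the set of `G`-partial matrices with minimum completion rank
`r` has nonempty interior. -/
def IsTypicalRank {n : ℕ} (G : Set (Sym2 (Fin n))) (r : ℕ) : Prop :=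
  (interior {M : G → ℝ | minRank M = r}).Nonempty

/-- The looped cycle on `n` vertices: loops at all vertices, and edges between cyclically
consecutive vertices. -/
def loopedCycle (n : ℕ) : Set (Sym2 (Fin n)) :=
  {e | ∃ i j : Fin n, e = s(i, j) ∧ (j = i ∨ (j : ℕ) = ((i : ℕ) + 1) % n)}

lemma represent (A B C κ : ℝ) (h : 0 < B ^ 2 - A * C) :
    ∃ x y : ℝ, A * x ^ 2 + 2 * B * x * y + C * y ^ 2 = κ := by
  by_cases hA : A = 0
  · subst hA
    have hB : B ≠ 0 := by
      rintro rfl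
      simp at h
    refine ⟨(κ - C) / (2 * B), 1, ?_⟩
    field_simp
    ring
  · have hs : √(B ^ 2 - A * C) ≠ 0 := (Real.sqrt_pos.mpr h).ne'
    have hs2 : √(B ^ 2 - A * C) ^ 2 = B ^ 2 - A * C := Real.sq_sqrt h.le
    set s := √(B ^ 2 - A * C) with hsdef
    refine ⟨((A * κ + 1) / 2 - B * (((A * κ - 1) / 2) / s)) / A, ((A * κ - 1) / 2) / s, ?_⟩
    have key : ∀ r y : ℝ, A * ((r - B * y) / A) ^ 2 + 2 * B * ((r - B * y) / A) * y + C * y ^ 2 =
        (r ^ 2 - (B ^ 2 - A * C) * y ^ 2) / A := by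
      intro r y
      field_simp
      ring
    rw [key, ← hs2]
    field_simp
    ring

/-- the form on `ℝ³` -/
def q (b b' : ℝ × ℝ × ℝ) : ℝ := b.1 * b'.2.2 + b.2.2 * b'.1 - b.2.1 * b'.2.1

lemma q_perp (b : ℝ × ℝ × ℝ) (hb : q b b < 0) (κ : ℝ) :
    ∃ w : ℝ × ℝ × ℝ, q b w = 0 ∧ q w w = κ := by
  obtain ⟨x, y, z⟩ := b
  have hb' : x * z + z * x - y * y < 0 := hb
  by_cases hy : y = 0
  · subst hy
    have hx : x ≠ 0 := by
      rintro rfl
      simp at hb'
    have hd : 0 < (0 : ℝ) ^ 2 - (-2 * z / x) * (-1) := by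
      have h1 : (0 : ℝ) ^ 2 - (-2 * z / x) * (-1) = -(2 * (x * z)) / (x * x) := by
        field_simp
        ring
      rw [h1]
      apply div_pos
      · linarith
      · exact mul_self_pos.mpr hx
    obtain ⟨p, s, hps⟩ := represent _ _ _ κ hd
    refine ⟨(p, s, -z * p / x), ?_, ?_⟩
    · show x * (-z * p / x) + z * p - 0 * s = 0
      field_simp
      ring
    · show p * (-z * p / x) + (-z * p / x) * p - s * s = κ
      rw [← hps]
      field_simp
      ring
  · have hd : 0 < (1 - x * z / y ^ 2) ^ 2 - (-z ^ 2 / y ^ 2) * (-x ^ 2 / y ^ 2) := by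
      have h1 : (1 - x * z / y ^ 2) ^ 2 - (-z ^ 2 / y ^ 2) * (-x ^ 2 / y ^ 2) =
          -(x * z + z * x - y * y) / (y ^ 2) := by
        field_simp
        ring
      rw [h1]
      apply div_pos
      · linarith
      · positivity
    obtain ⟨p, r, hpr⟩ := represent _ _ _ κ hd
    refine ⟨(p, (x * r + z * p) / y, r), ?_, ?_⟩
    · show x * r + z * p - y * ((x * r + z * p) / y) = 0
      field_simp
      ring
    · show p * r + r * p - ((x * r + z * p) / y) * ((x * r + z * p) / y) = κ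
      rw [← hpr]
      field_simp
      ring

lemma q_step (b : ℝ × ℝ × ℝ) (hb : q b b < 0) (d c' : ℝ) :
    ∃ b' : ℝ × ℝ × ℝ, q b b' = d ∧ q b' b' = c' := by
  obtain ⟨w, h1, h2⟩ := q_perp b hb (c' - d ^ 2 / q b b)
  have hb0 : q b b ≠ 0 := hb.ne
  set t := d / q b b with ht
  refine ⟨(t * b.1 + w.1, t * b.2.1 + w.2.1, t * b.2.2 + w.2.2), ?_, ?_⟩
  · have h3 : q b (t * b.1 + w.1, t * b.2.1 + w.2.1, t * b.2.2 + w.2.2) =
        t * q b b + q b w := by
      unfold q
      ring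
    rw [h3, h1, ht]
    field_simp
    ring
  · have h3 : q (t * b.1 + w.1, t * b.2.1 + w.2.1, t * b.2.2 + w.2.2)
        (t * b.1 + w.1, t * b.2.1 + w.2.1, t * b.2.2 + w.2.2) =
        t ^ 2 * q b b + 2 * t * q b w + q w w := by
      unfold q
      ring
    rw [h3, h1, h2, ht]
    field_simp
    ring

lemma q_start (c1 c2 d : ℝ) (h1 : c1 ≠ 0) (h2 : c2 < 0) :
    ∃ b b' : ℝ × ℝ × ℝ, q b b = c1 ∧ q b b' = d ∧ q b' b' = c2 := by
  have hb : q (1, 0, c1 / 2) (1, 0, c1 / 2) = c1 := by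
    unfold q
    simp
  rcases lt_or_gt_of_ne h1 with h | h
  · obtain ⟨b', h3, h4⟩ := q_step (1, 0, c1 / 2) (by rw [hb]; exact h) d c2
    exact ⟨_, b', hb, h3, h4⟩
  · have h3 : 0 ≤ d ^ 2 / c1 - c2 := by
      have : 0 ≤ d ^ 2 / c1 := by positivity
      linarith
    refine ⟨(1, 0, c1 / 2), (d / c1, √(d ^ 2 / c1 - c2), d / 2), hb, ?_, ?_⟩
    · unfold q
      simp only
      field_simp
      ring
    · unfold q
      simp only
      rw [Real.mul_self_sqrt h3]
      field_simp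
      ring

lemma exists_seq (c d : ℕ → ℝ) (N : ℕ) (hc1 : c 1 ≠ 0) (hc : ∀ k, 2 ≤ k → k < N → c k < 0)
    (j : ℕ) (hj : 2 ≤ j) (hjN : j ≤ N) (hN : 3 ≤ N) :
    ∃ b : ℕ → ℝ × ℝ × ℝ, (∀ k, 1 ≤ k → k ≤ j → q (b k) (b k) = c k) ∧
      (∀ k, 1 ≤ k → k < j → q (b k) (b (k + 1)) = d k) := by
  induction j, hj using Nat.le_induction with
  | base =>
    obtain ⟨b, b', h1, h2, h3⟩ := q_start (c 1) (c 2) (d 1) hc1 (hc 2 le_rfl (by omega))
    refine ⟨fun k => if k = 1 then b else b', ?_, ?_⟩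
    · intro k hk1 hk2
      have : k = 1 ∨ k = 2 := by omega
      rcases this with rfl | rfl
      · simpa using h1
      · simpa using h3
    · intro k hk1 hk2
      have : k = 1 := by omega
      subst this
      simpa using h2
  | succ j hj ih =>
    obtain ⟨b, h1, h2⟩ := ih (by omega)
    have hneg : q (b j) (b j) < 0 := by
      rw [h1 j (by omega) le_rfl]
      exact hc j hj (by omega)
    obtain ⟨b', h3, h4⟩ := q_step (b j) hneg (d j) (c (j + 1))
    refine ⟨Function.update b (j + 1) b', ?_, ?_⟩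
    · intro k hk1 hk2
      by_cases hk : k = j + 1
      · subst hk
        rw [Function.update_self]
        exact h4
      · rw [Function.update_of_ne hk]
        exact h1 k hk1 (by omega)
    · intro k hk1 hk2
      have hk : k ≠ j + 1 := by omega
      rw [Function.update_of_ne hk]
      by_cases hk' : k = j
      · subst hk'
        rw [Function.update_self]
        exact h3
      · rw [Function.update_of_ne (by omega)]
        exact h2 k hk1 (by omega)

/-- rank bound for the constructed matrices -/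
lemma rank_le_four {n : ℕ} (s m0 : ℝ) (a : Fin n → ℝ) (b : Fin n → ℝ × ℝ × ℝ) :
    (Matrix.of fun i j => s * (m0 * a i * a j + q (b i) (b j)) :
      Matrix (Fin n) (Fin n) ℝ).rank ≤ 4 := by
  have h : (Matrix.of fun i j => s * (m0 * a i * a j + q (b i) (b j)) :
      Matrix (Fin n) (Fin n) ℝ) =
      (Matrix.of fun (i : Fin n) (k : Fin 4) =>
        ![s * m0 * a i, s * (b i).1, s * (b i).2.2, -s * (b i).2.1] k) *
      (Matrix.of fun (k : Fin 4) (j : Fin n) => ![a j, (b j).2.2, (b j).1, (b j).2.1] k) := by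
    ext i j
    rw [Matrix.mul_apply, Fin.sum_univ_four]
    simp [q]
    ring
  rw [h]
  refine (Matrix.rank_mul_le_right _ _).trans ?_
  exact (Matrix.rank_le_height _)

lemma complete_pos (n : ℕ) (hn : 4 ≤ n) (m : ℕ → ℕ → ℝ) (h0 : 0 < m 0 0)
    (h1 : m 0 0 * m 1 1 - (m 0 1) ^ 2 ≠ 0) :
    ∃ (a : ℕ → ℝ) (b : ℕ → ℝ × ℝ × ℝ),
      (∀ i, i < n → m 0 0 * a i * a i + q (b i) (b i) = m i i) ∧
      (∀ i, i + 1 < n → m 0 0 * a i * a (i + 1) + q (b i) (b (i + 1)) = m i (i + 1)) ∧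
      (m 0 0 * a 0 * a (n - 1) + q (b 0) (b (n - 1)) = m 0 (n - 1)) := by
  set S : ℝ := ∑ k ∈ Finset.range n, |m k k| with hS
  have hS0 : 0 ≤ S := Finset.sum_nonneg fun k _ => abs_nonneg _
  have hSk : ∀ k, k < n → m k k ≤ S := by
    intro k hk
    refine (le_abs_self _).trans ?_
    exact Finset.single_le_sum (f := fun k => |m k k|) (fun k _ => abs_nonneg _)
      (Finset.mem_range.mpr hk)
  set T : ℝ := m 0 0 * S + 1 with hT
  have hT2 : m 0 0 * S < T ^ 2 := by
    have : 0 ≤ m 0 0 * S := by positivity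
    nlinarith
  obtain ⟨t, ht0, ht1, htn, htk⟩ : ∃ t : ℕ → ℝ, t 0 = m 0 0 ∧ t 1 = m 0 1 ∧
      t (n - 1) = m 0 (n - 1) ∧ ∀ k, 2 ≤ k → k < n - 1 → t k = T := by
    refine ⟨fun k => if 2 ≤ k ∧ k < n - 1 then T else m 0 k, ?_, ?_, ?_, ?_⟩
    · simp
    · simp
    · simp
    · intro k h2 h3
      simp [h2, h3]
  obtain ⟨b, hb1, hb2⟩ := exists_seq (fun k => m k k - t k ^ 2 / m 0 0)
    (fun k => m k (k + 1) - t k * t (k + 1) / m 0 0) (n - 1) (by
      intro h
      apply h1
      rw [ht1] at h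
      field_simp at h
      linarith) (by
      intro k hk2 hkn
      rw [htk k hk2 hkn, sub_neg, lt_div_iff₀ h0]
      have := hSk k (by omega)
      nlinarith) (n - 1) (by omega) le_rfl (by omega)
  refine ⟨fun k => t k / m 0 0, fun k => if k = 0 then (0, 0, 0) else b k, ?_, ?_, ?_⟩
  · intro i hi
    by_cases hi0 : i = 0
    · subst hi0
      simp only [ht0, ↓reduceIte]
      unfold q
      field_simp
      ring
    · simp only [if_neg hi0]
      rw [hb1 i (by omega) (by omega)]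
      field_simp
      ring
  · intro i hi
    by_cases hi0 : i = 0
    · subst hi0
      simp only [ht0, zero_add, ht1, ↓reduceIte]
      unfold q
      field_simp
      simp
    · simp only [if_neg hi0, if_neg (Nat.succ_ne_zero i)]
      rw [hb2 i (by omega) (by omega)]
      field_simp
      ring
  · simp only [ht0, htn, ↓reduceIte]
    unfold q
    field_simp
    ring

lemma complete (n : ℕ) (hn : 4 ≤ n) (m : ℕ → ℕ → ℝ) (h0 : m 0 0 ≠ 0)
    (h1 : m 0 0 * m 1 1 - (m 0 1) ^ 2 ≠ 0) :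
    ∃ A : Matrix (Fin n) (Fin n) ℝ, A.IsSymm ∧ A.rank ≤ 4 ∧ (∀ i : Fin n, A i i = m i i) ∧
      (∀ i j : Fin n, (j : ℕ) = i + 1 → A i j = m i j) ∧
      (∀ i j : Fin n, (i : ℕ) = 0 → (j : ℕ) = n - 1 → A i j = m i j) := by
  have key : ∀ s : ℝ, s * s = 1 → ∀ m' : ℕ → ℕ → ℝ, (∀ i j, m i j = s * m' i j) →
      0 < m' 0 0 → m' 0 0 * m' 1 1 - (m' 0 1) ^ 2 ≠ 0 →
      ∃ A : Matrix (Fin n) (Fin n) ℝ, A.IsSymm ∧ A.rank ≤ 4 ∧ (∀ i : Fin n, A i i = m i i) ∧
      (∀ i j : Fin n, (j : ℕ) = i + 1 → A i j = m i j) ∧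
      (∀ i j : Fin n, (i : ℕ) = 0 → (j : ℕ) = n - 1 → A i j = m i j) := by
    intro s hs m' hm' h0' h1'
    obtain ⟨a, b, h2, h3, h4⟩ := complete_pos n hn m' h0' h1'
    refine ⟨Matrix.of fun i j : Fin n => s * (m' 0 0 * a i * a j + q (b i) (b j)), ?_,
      rank_le_four s (m' 0 0) (fun i => a i) (fun i => b i), ?_, ?_, ?_⟩
    · ext i j
      simp only [Matrix.transpose_apply, Matrix.of_apply, q]
      ring
    · intro i
      rw [Matrix.of_apply, h2 i i.2, hm']
    · intro i j hij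
      rw [Matrix.of_apply, hij, h3 i (by omega), hm']
    · intro i j hi hj
      rw [Matrix.of_apply, hi, hj, h4, hm']
  rcases lt_or_gt_of_ne h0 with h | h
  · refine key (-1) (by norm_num) (fun i j => - m i j) (fun i j => by ring) (by simpa using h) ?_
    intro h2
    apply h1
    linarith
  · exact key 1 (by norm_num) m (fun i j => by ring) h h1

lemma minRank_le {n : ℕ} {G : Set (Sym2 (Fin n))} (M : G → ℝ) (A : Matrix (Fin n) (Fin n) ℝ)
    (h : IsCompletion M A) : minRank M ≤ A.rank :=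
  Nat.sInf_le ⟨A, h, rfl⟩

lemma mem_loop {n : ℕ} (i : Fin n) : s(i, i) ∈ loopedCycle n := ⟨i, i, rfl, Or.inl rfl⟩

lemma generic_le {n : ℕ} (hn : 4 ≤ n) (M : loopedCycle n → ℝ) (i0 i1 : Fin n)
    (hi0 : (i0 : ℕ) = 0) (hi1 : (i1 : ℕ) = 1) (h01 : s(i0, i1) ∈ loopedCycle n)
    (h0 : M ⟨s(i0, i0), mem_loop i0⟩ ≠ 0)
    (h1 : M ⟨s(i0, i0), mem_loop i0⟩ * M ⟨s(i1, i1), mem_loop i1⟩ - M ⟨s(i0, i1), h01⟩ ^ 2 ≠ 0) :
    minRank M ≤ 4 := by
  classical
  let μ : Sym2 (Fin n) → ℝ := fun e => if h : e ∈ loopedCycle n then M ⟨e, h⟩ else 0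
  have hμ : ∀ (e : Sym2 (Fin n)) (h : e ∈ loopedCycle n), μ e = M ⟨e, h⟩ := by
    intro e h
    simp only [μ, dif_pos h]
  let m : ℕ → ℕ → ℝ := fun i j => if h : i < n ∧ j < n then μ s(⟨i, h.1⟩, ⟨j, h.2⟩) else 0
  have hm : ∀ i j : Fin n, m i j = μ s(i, j) := by
    intro i j
    simp only [m, dif_pos (⟨i.2, j.2⟩ : (i : ℕ) < n ∧ (j : ℕ) < n)]
  have h00 : m 0 0 = M ⟨s(i0, i0), mem_loop i0⟩ := by
    rw [← hμ, ← hm, hi0]
  have h11 : m 1 1 = M ⟨s(i1, i1), mem_loop i1⟩ := by
    rw [← hμ, ← hm, hi1]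
  have h01' : m 0 1 = M ⟨s(i0, i1), h01⟩ := by
    rw [← hμ, ← hm, hi0, hi1]
  obtain ⟨A, hA1, hA2, hA3, hA4, hA5⟩ := complete n hn m (by rw [h00]; exact h0)
    (by rw [h00, h11, h01']; exact h1)
  refine (minRank_le M A ⟨hA1, ?_⟩).trans hA2
  have hsym : ∀ i j, A i j = A j i := fun i j => (congrFun (congrFun hA1 i) j).symm
  have base : ∀ i j : Fin n, (j = i ∨ (j : ℕ) = ((i : ℕ) + 1) % n) → A i j = μ s(i, j) := by
    intro i j h
    rcases h with rfl | h
    · rw [hA3, hm]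
    · by_cases hi : (i : ℕ) + 1 < n
      · rw [Nat.mod_eq_of_lt hi] at h
        rw [hA4 i j h, hm]
      · have hi' : (i : ℕ) + 1 = n := by omega
        rw [hi', Nat.mod_self] at h
        rw [hsym, hA5 j i h (by omega), hm, Sym2.eq_swap]
  intro i j h
  rw [← hμ _ h]
  obtain ⟨i', j', he, hij⟩ := h
  rcases Sym2.eq_iff.mp he with ⟨rfl, rfl⟩ | ⟨rfl, rfl⟩
  · exact base _ _ hij
  · rw [hsym, Sym2.eq_swap]
    exact base _ _ hij

lemma exists_update {ι : Type*} [DecidableEq ι] {U : Set (ι → ℝ)} (hU : IsOpen U) {M : ι → ℝ}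
    (hM : M ∈ U) (e : ι) (x0 : ℝ) : ∃ x : ℝ, x ≠ x0 ∧ Function.update M e x ∈ U := by
  have hc : Continuous fun x : ℝ => Function.update M e x :=
    continuous_const.update e continuous_id
  have h1 : IsOpen ((fun x : ℝ => Function.update M e x) ⁻¹' U) := hU.preimage hc
  have h2 : ((fun x : ℝ => Function.update M e x) ⁻¹' U).Nonempty := by
    refine ⟨M e, ?_⟩
    rw [Set.mem_preimage, Function.update_eq_self]
    exact hM
  obtain ⟨x, hx1, hx2⟩ := (dense_compl_singleton x0).inter_open_nonempty _ h1 h2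
  exact ⟨x, hx2, hx1⟩

/-- Every typical rank of a looped cycle is at most `4`. In particular `5` is never the maximum
typical rank of a looped cycle. -/
theorem result (n : ℕ) (hn : 3 ≤ n) :
    (∀ r, IsTypicalRank (loopedCycle n) r → r ≤ 4) ∧
    ¬ IsGreatest {r | IsTypicalRank (loopedCycle n) r} 5 := by
  classical
  have h : ∀ r, IsTypicalRank (loopedCycle n) r → r ≤ 4 := by
    rintro r ⟨M, hM⟩
    by_cases hn4 : 4 ≤ n
    · let i0 : Fin n := ⟨0, by omega⟩
      let i1 : Fin n := ⟨1, by omega⟩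
      have h01 : s(i0, i1) ∈ loopedCycle n := by
        refine ⟨i0, i1, rfl, Or.inr ?_⟩
        show 1 = (0 + 1) % n
        rw [Nat.mod_eq_of_lt (by omega)]
      have hne : i0 ≠ i1 := by
        intro h
        have : (0 : ℕ) = 1 := congrArg Fin.val h
        omega
      obtain ⟨x, hx, hxU⟩ := exists_update isOpen_interior hM ⟨s(i0, i0), mem_loop i0⟩ 0
      set M1 := Function.update M ⟨s(i0, i0), mem_loop i0⟩ x with hM1
      obtain ⟨y, hy, hyU⟩ := exists_update isOpen_interior hxU ⟨s(i1, i1), mem_loop i1⟩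
        (M1 ⟨s(i0, i1), h01⟩ ^ 2 / x)
      set M2 := Function.update M1 ⟨s(i1, i1), mem_loop i1⟩ y with hM2
      have e00 : M2 ⟨s(i0, i0), mem_loop i0⟩ = x := by
        rw [hM2, Function.update_of_ne, hM1, Function.update_self]
        intro h
        have h2 := congrArg Subtype.val h
        simp [hne] at h2
      have e11 : M2 ⟨s(i1, i1), mem_loop i1⟩ = y := by
        rw [hM2, Function.update_self]
      have e01 : M2 ⟨s(i0, i1), h01⟩ = M1 ⟨s(i0, i1), h01⟩ := by
        rw [hM2, Function.update_of_ne]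
        intro h
        have h2 := congrArg Subtype.val h
        simp [hne] at h2
      have hle := generic_le hn4 M2 i0 i1 rfl rfl h01 (by rw [e00]; exact hx) (by
        rw [e00, e11, e01]
        intro h
        apply hy
        field_simp
        linarith)
      have hmem : M2 ∈ {M | minRank M = r} := interior_subset hyU
      have heq : minRank M2 = r := hmem
      omega
    · have hmem : M ∈ {M | minRank M = r} := interior_subset hM
      have heq : minRank M = r := hmem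
      rw [← heq]
      by_cases hex : ∃ A, IsCompletion M A
      · obtain ⟨A, hA⟩ := hex
        refine (minRank_le M A hA).trans ?_
        refine (Matrix.rank_le_height A).trans ?_
        omega
      · unfold minRank
        have : {r | ∃ A : Matrix (Fin n) (Fin n) ℝ, IsCompletion M A ∧ A.rank = r} = ∅ := by
          rw [Set.eq_empty_iff_forall_notMem]
          rintro r ⟨A, hA, _⟩
          exact hex ⟨A, hA⟩
        rw [this, Nat.sInf_empty]
        omega
  exact ⟨h, fun h5 => absurd (h 5 h5.1) (by norm_num)⟩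

end Pool.Agent.Results.MP_541c26_co.LoopedCycle
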